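import Pool.Agent.Helper7.KT.St

/-! Module POA of project KT (MP_5176ab_co): few edges with a sparse relation. -/

set_option autoImplicit false

namespace Pool.Agent.Helper96.KT

open Finset SimpleGraph Filter Topology
open EX Pool.Agent.Helper7.KT

open scoped Classical

noncomputable section

theorem hPOA (hCDR : StCDR) (hRBW : StRBW) : StPOA := by
  intro U _ G s t hG ε hε
  have hN0 : (0 : ℝ) < (sN 2 G : ℝ) + 1 := by positivity
  obtain ⟨δ, hδ, hδ2⟩ := hRBW U G s t hG (ε / ((sN 2 G : ℝ) + 1)) (div_pos hε hN0)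
  refine ⟨δ, hδ, fun δ' h1 h2 => ?_⟩
  filter_upwards [hδ2 δ' h1 h2] with n hn
  intro H hH Q hQ1 hQ2
  have hH3 : ∀ E ∈ H, E.card = 3 := fun E hE => hH.1 E hE
  let E₀ : Finset (Fin n × Fin n) := univ.filter fun p =>
    ¬ (Γr 2 G H).Adj p.1 p.2 ∧ ∃ z, T3 H p.1 p.2 z ∧ Q p.1 p.2 z
  let c : Fin n → Fin n → Fin n := fun x y =>
    if h : ∃ z, T3 H x y z ∧ Q x y z then h.choose else x
  have hc : ∀ u v, (u, v) ∈ E₀ → T3 H u v (c u v) ∧ Q u v (c u v) := by
    intro u v huv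
    have h := (mem_filter.1 huv).2.2
    have e : c u v = h.choose := dif_pos h
    rw [e]
    exact h.choose_spec
  have hcard : (E₀.card : ℝ) < ε / ((sN 2 G : ℝ) + 1) * (n : ℝ) ^ 2 := by
    by_contra hlt
    refine hH.2 (hn H hH3 E₀ c (fun u v huv => (hc u v huv).1) ?_ ?_ (not_lt.1 hlt))
    · intro u z
      refine le_trans ?_ (hQ1 u z)
      refine Nat.cast_le.2 (card_le_card ?_)
      intro v hv
      simp only [mem_filter, mem_univ, true_and] at hv ⊢
      rw [← hv.2]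
      exact (hc u v hv.1).2
    · intro v z
      refine le_trans ?_ (hQ2 v z)
      refine Nat.cast_le.2 (card_le_card ?_)
      intro u hu
      simp only [mem_filter, mem_univ, true_and] at hu ⊢
      rw [← hu.2]
      exact (hc u v hu.1).2
  have hsub : (H.filter fun E => ∃ x y z, T3 H x y z ∧ E = {x, y, z} ∧
      ¬ (Γr 2 G H).Adj x y ∧ Q x y z) ⊆
      E₀.biUnion fun p => (univ.filter fun w => T3 H p.1 p.2 w).image
        fun w => ({p.1, p.2, w} : Finset (Fin n)) := by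
    intro E hE
    obtain ⟨x, y, z, h3, hEe, hA, hq⟩ := (mem_filter.1 hE).2
    refine mem_biUnion.2 ⟨(x, y), mem_filter.2 ⟨mem_univ _, hA, z, h3, hq⟩, ?_⟩
    exact mem_image.2 ⟨z, mem_filter.2 ⟨mem_univ _, h3⟩, hEe.symm⟩
  have hle : (H.filter fun E => ∃ x y z, T3 H x y z ∧ E = {x, y, z} ∧
      ¬ (Γr 2 G H).Adj x y ∧ Q x y z).card ≤ E₀.card * sN 2 G := by
    refine (card_le_card hsub).trans (card_biUnion_le_card_mul _ _ _ ?_)
    intro p hp
    refine card_image_le.trans ?_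
    obtain ⟨hA, z, h3, -⟩ := (mem_filter.1 hp).2
    have hne : p.1 ≠ p.2 := h3.1
    have hR : ¬ Rich (sN 2 G) H p.1 p.2 := fun hr => hA ⟨hne, hr⟩
    rw [hCDR (Fin n) H hH3 (sN 2 G) p.1 p.2 hne] at hR
    exact (not_le.1 hR).le
  calc ((H.filter fun E => ∃ x y z, T3 H x y z ∧ E = {x, y, z} ∧
        ¬ (Γr 2 G H).Adj x y ∧ Q x y z).card : ℝ) ≤ ((E₀.card * sN 2 G : ℕ) : ℝ) := by
        exact_mod_cast hle
    _ = (E₀.card : ℝ) * (sN 2 G : ℝ) := by push_cast; ring
    _ ≤ (ε / ((sN 2 G : ℝ) + 1) * (n : ℝ) ^ 2) * ((sN 2 G : ℝ) + 1) := by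
        refine mul_le_mul hcard.le (by linarith) (by positivity) (by positivity)
    _ = ε * (n : ℝ) ^ 2 := by field_simp

end

end Pool.Agent.Helper96.KT
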